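import Pool.Agent.N669.CQ.Stm

/-!
# HUL: a strictly convex quadrilateral as an intersection of half planes (helper135)
-/

set_option autoImplicit false

namespace Pool.Agent.N135.CQ

open Pool.Agent.N669.CQ

theorem tri_mem (p q r x : P) (hD : 0 < cr (q - p) (r - p)) (h1 : 0 ≤ cr (q - p) (x - p))
    (h2 : 0 ≤ cr (r - q) (x - q)) (h3 : 0 ≤ cr (p - r) (x - r)) : x ∈ convexHull ℝ {p, q, r} := by
  set D := cr (q - p) (r - p) with hDd
  have hsum : cr (r - q) (x - q) + cr (p - r) (x - r) + cr (q - p) (x - p) = D := by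
    rw [hDd]
    simp only [cr, Prod.fst_sub, Prod.snd_sub]
    ring
  have hx : x = (cr (r - q) (x - q) / D) • p + (cr (p - r) (x - r) / D) • q +
      (cr (q - p) (x - p) / D) • r := by
    have e1 : D • x = (cr (r - q) (x - q)) • p + (cr (p - r) (x - r)) • q +
        (cr (q - p) (x - p)) • r := by
      rw [hDd]
      ext
      · simp only [cr, Prod.fst_sub, Prod.snd_sub, Prod.fst_add, Prod.smul_fst, smul_eq_mul]
        ring
      · simp only [cr, Prod.fst_sub, Prod.snd_sub, Prod.snd_add, Prod.smul_snd, smul_eq_mul]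
        ring
    have e2 : x = D⁻¹ • (D • x) := by rw [smul_smul, inv_mul_cancel₀ hD.ne', one_smul]
    refine e2.trans ?_
    rw [e1, smul_add, smul_add, smul_smul, smul_smul, smul_smul]
    simp only [div_eq_inv_mul]
  have hp : p ∈ convexHull ℝ ({p, q, r} : Set P) := subset_convexHull ℝ _ (by simp)
  have hq : q ∈ convexHull ℝ ({p, q, r} : Set P) := subset_convexHull ℝ _ (by simp)
  have hr : r ∈ convexHull ℝ ({p, q, r} : Set P) := subset_convexHull ℝ _ (by simp)
  have hconv := convex_convexHull ℝ ({p, q, r} : Set P)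
  rw [hx]
  exact hconv.sum_mem (t := Finset.univ)
      (w := ![cr (r - q) (x - q) / D, cr (p - r) (x - r) / D, cr (q - p) (x - p) / D])
      (z := ![p, q, r])
      (by intro i _; fin_cases i <;> simp <;> positivity)
      (by simp only [Fin.sum_univ_three, Matrix.cons_val]
          rw [← add_div, ← add_div, hsum, div_self hD.ne'])
      (by intro i _; fin_cases i <;> simp [hp, hq, hr])
      |> (by simpa [Fin.sum_univ_three] using ·)

theorem t_HUL : S_HUL := by
  intro a b c d x hT h1 h2 h3 h4
  rcases le_total (cr (c - a) (x - a)) 0 with h | h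
  · left
    refine tri_mem a b c x ?_ h1 h2 ?_
    · have := hT.tb
      simp only [cr, Prod.fst_sub, Prod.snd_sub] at this ⊢
      linarith
    · simp only [cr, Prod.fst_sub, Prod.snd_sub] at h ⊢
      linarith
  · right
    refine tri_mem a c d x ?_ h h3 h4
    have := hT.td
    simp only [cr, Prod.fst_sub, Prod.snd_sub] at this ⊢
    linarith

end Pool.Agent.N135.CQ
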